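import Mathlib
import Pool.Agent.MP_ae9641_al.Main

set_option autoImplicit false

namespace Pool.Agent.Results.MP_ae9641_al.KernelNotNFP

open Pool.Agent.MP_ae9641_al

/-- It is false that, for every noetherian ring `k` and admissible sequence `π` with infinitely many
terms in the Jacobson radical, the kernel of every degree-preserving morphism of nearly finitely
presented graded modules over the generalized divided power algebra `D(π; k)` is nearly finitely
presented. -/
theorem result :
    ¬ (∀ (k : Type) [CommRing k] [IsNoetherianRing k] (π : ℕ → k), Admissible π →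
      {n : ℕ | 2 ≤ n ∧ π n ∈ Ideal.jacobson (⊥ : Ideal k)}.Infinite →
      ∀ (D : Type) [CommRing D] [Algebra k D] (x : Module.Basis ℕ k D),
      (∀ n m : ℕ, x n * x m = coeffC π (n + m) n • x (n + m)) →
      ∀ (M : Type) [AddCommGroup M] [Module k M] [Module D M] [IsScalarTower k D M]
        (ℳ : ℤ → Submodule k M)
        (N : Type) [AddCommGroup N] [Module k N] [Module D N] [IsScalarTower k D N]
        (𝒩 : ℤ → Submodule k N) (f : M →ₗ[D] N),
        IsGraded x ℳ → IsGraded x 𝒩 → IsNFP x ℳ → IsNFP x 𝒩 →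
        (∀ (j : ℤ) (m : M), m ∈ ℳ j → f m ∈ 𝒩 j) →
        IsNFP x (subGrading ℳ (LinearMap.ker f))) := by
  intro h
  obtain ⟨D, _, _, x, hx⟩ := exists_dpa Z2
  obtain ⟨c, hc1, hc2⟩ := exists_seq Z2 2 two_ne_zero Z2_two_not_unit
  have hc : ∀ j l : ℕ, 1 ≤ j → j ≤ l → (j : Z2) ∣ c l - c j :=
    fun j l hj hl => (Z2_dvd_pow j hj).trans (hc1 j l hl)
  exact not_nfp_ker x hx c hc (exists_pow_not_dvd Z2 2 Z2_two_not_unit) hc2
    (h Z2 (fun d => (piN d : Z2)) Z2_admissible Z2_infinite D x
      (fun n m => by rw [coeffC_classical, hx]) (srcM x) (subGrading (grDD x) (srcM x))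
      (D ⧸ idI x) (grQ x) (theMap x hx c hc) (isGraded_src x hx) (isGraded_grQ x hx)
      (isNFP_src x hx) (isNFP_grQ x hx) (theMap_deg x hx c hc))

end Pool.Agent.Results.MP_ae9641_al.KernelNotNFP
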